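import Pool.Agent.H7.GT.Stmts
import Pool.Agent.H14.KQ.GLO

/-!
# Board `gt7`, row GLD: local to global
-/

set_option autoImplicit false

open Finset

namespace Pool.GT7

open Pool.Agent.H23.KT Pool.Agent.H46.KW Pool.KQ

namespace H64GLD

lemma sum_kc {V : Type} [Fintype V] [DecidableEq V] (G : SimpleGraph V) (j : ℕ) :
    ∑ v, ((kc G (nb G univ v) j : ℕ) : ℝ) = ((j : ℝ) + 1) * kc G univ (j + 1) := by
  have h3 := H14GLO.exch (G := G) j (fun _ _ => (1 : ℝ))
  have e1 : ∀ v, ((kc G (nb G univ v) j : ℕ) : ℝ) = ∑ L ∈ clq G (nb G univ v) j, (1 : ℝ) := by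
    intro v
    rw [kc_eq]
    simp
  rw [sum_congr rfl (fun v _ => e1 v), h3]
  have e2 : ∀ K ∈ clq G univ (j + 1), ∑ v ∈ K, (1 : ℝ) = (j : ℝ) + 1 := by
    intro K hK
    rw [sum_const, ((mem_clq G).1 hK).2.1, nsmul_eq_mul]
    push_cast
    ring
  rw [sum_congr rfl e2, sum_const, ← kc_eq, nsmul_eq_mul]
  ring

end H64GLD

open H64GLD in
theorem GLD_thm (hPHI : PHIStmt) (hTTR : TTRStmt) (hLMB : LMBStmt) : GLDStmt := by
  intro V _ _ G p w r a hP ha hCB hdeg hloc
  have hr : (0 : ℝ) < r := by exact_mod_cast hP.r1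
  obtain ⟨K, hK, hL⟩ := hLMB p w r hP
  obtain ⟨-, -, hlam, hLm, -, hlast⟩ := hL a ha
  have h1 := hPHI G p w r a hP hCB hdeg
  have h2 := H14GLO.exch (G := G) (p + 3) (fun v L => min (r : ℝ) (XX G p r a (nb G univ v) L))
  have h4 : (r : ℝ) * kc G univ (p + 4) ≤ ∑ K ∈ clq G univ (p + 4), ∑ v ∈ K,
      min (r : ℝ) (XX G p r a (nb G univ v) (K.erase v)) := by
    rw [kc_eq, mul_comm, ← nsmul_eq_mul]
    exact card_nsmul_le_sum _ _ _ h1
  have h5 := sum_kc G (p + 3)
  have h5' := sum_kc G (w + 2)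
  have h6 : ∑ v, (lam p w r a * ((bal (p + 3) ((p + 3) * a + r) : ℝ) -
        kc G (nb G univ v) (p + 3)) +
      Lm p w r a * ∑ L ∈ clq G (nb G univ v) (p + 3),
        min (r : ℝ) (XX G p r a (nb G univ v) L)) ≤
      ∑ v, ((TT (p + 3) (w + 2) a r : ℝ) - kc G (nb G univ v) (w + 2)) :=
    sum_le_sum fun v _ => hloc v
  rw [sum_add_distrib, ← mul_sum, ← mul_sum, sum_sub_distrib, sum_sub_distrib, h2, h5, h5',
    sum_const, sum_const, card_univ, nsmul_eq_mul, nsmul_eq_mul] at h6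
  have h7 : Lm p w r a * r = lam p w r a * ((p : ℝ) + 4) := by
    unfold Lm
    field_simp
  have h8 := mul_le_mul_of_nonneg_left h4 hLm.le
  rw [← mul_assoc, h7] at h8
  have h9 := hTTR.2.1 (p + 2) (w + 1) a r hP.r1 (by have := hP.rp; omega)
  have h9' : ((w : ℝ) + 3) * TT (p + 4) (w + 3) a r +
      r * ((a : ℝ) + 1) * TT (p + 2) (w + 1) a (r - 1) =
      (((p : ℝ) + 4) * a + r) * TT (p + 3) (w + 2) a r := by
    have h := congrArg (Nat.cast : ℕ → ℝ) h9
    push_cast at h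
    linear_combination h
  push_cast at h6
  have h10 : lam p w r a * (Fintype.card V * (bal (p + 3) ((p + 3) * a + r) : ℝ)) ≤
      Fintype.card V * (TT (p + 3) (w + 2) a r : ℝ) - ((w : ℝ) + 3) * kc G univ (w + 3) := by
    have e1 : lam p w r a * ((p : ℝ) + 4) * kc G univ (p + 4) =
      lam p w r a * (((p : ℝ) + 3 + 1) * kc G univ (p + 4)) := by ring
    have e2 : ((w : ℝ) + 2 + 1) * kc G univ (w + 3) = ((w : ℝ) + 3) * kc G univ (w + 3) := by ring
    have e3 : lam p w r a * (Fintype.card V * (bal (p + 3) ((p + 3) * a + r) : ℝ) -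
        ((p : ℝ) + 3 + 1) * kc G univ (p + 4)) =
        lam p w r a * (Fintype.card V * (bal (p + 3) ((p + 3) * a + r) : ℝ)) -
        lam p w r a * (((p : ℝ) + 3 + 1) * kc G univ (p + 4)) := by ring
    have h6' : lam p w r a * (Fintype.card V * (bal (p + 3) ((p + 3) * a + r) : ℝ) -
        ((p : ℝ) + 3 + 1) * kc G univ (p + 4)) +
        Lm p w r a * ∑ K ∈ clq G univ (p + 4), ∑ v ∈ K,
          min (r : ℝ) (XX G p r a (nb G univ v) (K.erase v)) ≤
        Fintype.card V * (TT (p + 3) (w + 2) a r : ℝ) - ((w : ℝ) + 2 + 1) * kc G univ (w + 3) :=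
      h6
    linarith
  have hM : (0 : ℝ) ≤ ((p : ℝ) + 4) * a + r := by positivity
  have h11 := mul_le_mul_of_nonneg_right h10 hM
  have h12 : lam p w r a * (Fintype.card V * (bal (p + 3) ((p + 3) * a + r) : ℝ)) *
      (((p : ℝ) + 4) * a + r) =
      Fintype.card V * (r * ((a : ℝ) + 1) * TT (p + 2) (w + 1) a (r - 1)) := by
    linear_combination (Fintype.card V : ℝ) * hlast
  rw [h12] at h11
  have h13 : ((w : ℝ) + 3) * ((kc G univ (w + 3) : ℝ) * (((p : ℝ) + 4) * a + r)) ≤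
      ((w : ℝ) + 3) * (TT (p + 4) (w + 3) a r * Fintype.card V) := by
    have h14 : ((w : ℝ) + 3) * (TT (p + 4) (w + 3) a r * Fintype.card V) =
        (Fintype.card V : ℝ) * ((((p : ℝ) + 4) * a + r) * TT (p + 3) (w + 2) a r) -
        (Fintype.card V : ℝ) * (r * ((a : ℝ) + 1) * TT (p + 2) (w + 1) a (r - 1)) := by
      linear_combination (Fintype.card V : ℝ) * h9'
    rw [h14]
    linarith
  have h15 := le_of_mul_le_mul_left h13 (by positivity)
  exact_mod_cast h15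

end Pool.GT7
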